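import Pool.Agent.Y778.NK.Stm
import Pool.Agent.Y69.TK.ArtK

/-!
Job NK-ARTIN of helper778: Artin induction for `K₀(R[G])`, `R` a commutative ring in which all
positive integers are invertible (the proof is that of `Pool.Agent.Y69.TK.ArtK` for `K₁`).
-/

set_option autoImplicit false

open Matrix

namespace Pool.Agent.Y43.NK

open Pool.Agent.Y778.NK
open H842 (XX artin_matrix)
open Pool.Agent.Y69.TK.ArtK (th th_single th_intertwine th_congr th_sum_inl_inr splitFirst ps
  ps_th zg_ext)

noncomputable section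

/-- the blown up matrix -/
def bl {S S' : Type} [Ring S] [Ring S'] {X : Type} [Fintype X] [DecidableEq X]
    (θ : S →+* Matrix X X S') {ι : Type} (e : Matrix ι ι S) : Matrix (ι × X) (ι × X) S' :=
  Matrix.of fun p q => θ (e p.1 q.1) p.2 q.2

theorem bl_idem {S S' : Type} [Ring S] [Ring S'] {X : Type} [Fintype X] [DecidableEq X]
    (θ : S →+* Matrix X X S') {ι : Type} [Fintype ι] {e : Matrix ι ι S} (he : e * e = e) :
    bl θ e * bl θ e = bl θ e := by
  ext p q : 1
  rw [Matrix.mul_apply, Fintype.sum_prod_type]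
  have h1 : bl θ e p q = θ ((e * e) p.1 q.1) p.2 q.2 := by rw [he]; rfl
  rw [h1, Matrix.mul_apply, map_sum, Matrix.sum_apply]
  refine Finset.sum_congr rfl fun k _ => ?_
  rw [map_mul, Matrix.mul_apply]
  rfl

section

variable {R : Type} [CommRing R] {G : Type} [Group G]

/-- the K-theoretic comparison -/
theorem cl0_compare {α β : Type} [Fintype α] [DecidableEq α] [Fintype β] [DecidableEq β]
    {e : Matrix α α (MonoidAlgebra R G)} (he : e * e = e)
    {f : Matrix β β (MonoidAlgebra R G)} (hf : f * f = f)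
    (A : Matrix α β (MonoidAlgebra R G)) (A' : Matrix β α (MonoidAlgebra R G)) (δ : R)
    (hδ : IsUnit δ)
    (h1 : A * A' = δ • (1 : Matrix α α (MonoidAlgebra R G)))
    (h2 : A' * A = δ • (1 : Matrix β β (MonoidAlgebra R G)))
    (h3 : e * A = A * f) : cl0 e he = cl0 f hf := by
  obtain ⟨d, rfl⟩ := hδ
  have h1' : A * (((d⁻¹ : Rˣ) : R) • A') = 1 := by
    rw [Matrix.mul_smul, h1, smul_smul, Units.inv_mul, one_smul]
  have h2' : (((d⁻¹ : Rˣ) : R) • A') * A = 1 := by
    rw [Matrix.smul_mul, h2, smul_smul, Units.inv_mul, one_smul]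
  generalize (((d⁻¹ : Rˣ) : R) • A') = B at h1' h2'
  apply cl0_swap he hf (e * A) (B * e)
  · rw [Matrix.mul_assoc, ← Matrix.mul_assoc A B e, h1', Matrix.one_mul, he]
  · rw [Matrix.mul_assoc, ← Matrix.mul_assoc e e A, he, h3, ← Matrix.mul_assoc, h2',
      Matrix.one_mul]

/-- the class of the twisted matrix -/
def yy (X : Type) [MulAction G X] [Finite X] {ι : Type} [Fintype ι] [DecidableEq ι]
    {e : Matrix ι ι (MonoidAlgebra R G)} (he : e * e = e) : K0 (MonoidAlgebra R G) :=
  letI := Fintype.ofFinite X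
  letI := Classical.decEq X
  cl0 (bl (th G X) e) (bl_idem _ he)

theorem yy_eq (X : Type) [MulAction G X] [hF : Fintype X] [hD : DecidableEq X] {ι : Type}
    [Fintype ι] [DecidableEq ι] {e : Matrix ι ι (MonoidAlgebra R G)} (he : e * e = e) :
    yy X he = cl0 (bl (th G X) e) (bl_idem _ he) := by
  have key : ∀ (F F' : Fintype X) (D D' : DecidableEq X),
      (letI := F; letI := D; cl0 (bl (th G X) e) (bl_idem _ he)) =
      (letI := F'; letI := D'; cl0 (bl (th G X) e) (bl_idem _ he)) := by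
    intro F F' D D'
    obtain rfl : F = F' := Subsingleton.elim _ _
    obtain rfl : D = D' := Subsingleton.elim _ _
    rfl
  exact key _ _ _ _

theorem yy_congr {X Y : Type} [MulAction G X] [Finite X] [MulAction G Y] [Finite Y] {ι : Type}
    [Fintype ι] [DecidableEq ι] {m : Matrix ι ι (MonoidAlgebra R G)} (hm : m * m = m) (e : X ≃ Y)
    (h : ∀ (g : G) x, e (g • x) = g • e x) : yy X hm = yy Y hm := by
  classical
  have := Fintype.ofFinite X
  have := Fintype.ofFinite Y
  rw [yy_eq, yy_eq]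
  apply cl0_congr (Equiv.prodCongr (Equiv.refl ι) e)
  rintro ⟨i, x⟩ ⟨j, x'⟩
  exact th_congr e e.injective h _ _ _

theorem yy_sum {X Y : Type} [MulAction G X] [Finite X] [MulAction G Y] [Finite Y] {ι : Type}
    [Fintype ι] [DecidableEq ι] {m : Matrix ι ι (MonoidAlgebra R G)} (hm : m * m = m) :
    yy (X ⊕ Y) hm = yy X hm + yy Y hm := by
  classical
  have := Fintype.ofFinite X
  have := Fintype.ofFinite Y
  rw [yy_eq, yy_eq, yy_eq, ← cl0_blocks]
  apply cl0_congr (Equiv.prodSumDistrib ι X Y)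
  rintro ⟨i, (x | x)⟩ ⟨j, (y | y)⟩
  · simp only [Equiv.prodSumDistrib_apply_left, Matrix.fromBlocks_apply₁₁]
    exact (th_congr (G := G) (Sum.inl : X → X ⊕ Y) Sum.inl_injective (fun _ _ => rfl) _ _ _).symm
  · simp only [Equiv.prodSumDistrib_apply_left, Equiv.prodSumDistrib_apply_right,
      Matrix.fromBlocks_apply₁₂]
    exact (th_sum_inl_inr _ _ _).1
  · simp only [Equiv.prodSumDistrib_apply_left, Equiv.prodSumDistrib_apply_right,
      Matrix.fromBlocks_apply₂₁]
    exact (th_sum_inl_inr _ _ _).2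
  · simp only [Equiv.prodSumDistrib_apply_right, Matrix.fromBlocks_apply₂₂]
    exact (th_congr (G := G) (Sum.inr : Y → X ⊕ Y) Sum.inr_injective (fun _ _ => rfl) _ _ _).symm

theorem yy_empty {X : Type} [MulAction G X] [Finite X] [IsEmpty X] {ι : Type}
    [Fintype ι] [DecidableEq ι] {m : Matrix ι ι (MonoidAlgebra R G)} (hm : m * m = m) :
    yy X hm = 0 := by
  classical
  have := Fintype.ofFinite X
  rw [yy_eq]
  have h : bl (th G X) m = 0 := by
    ext ⟨i, x⟩
    exact isEmptyElim x
  rw [cl0_eq _ (mul_zero _) h, cl0_zero]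

theorem yy_XX [Finite G] {ι : Type} [Fintype ι] [DecidableEq ι]
    {m : Matrix ι ι (MonoidAlgebra R G)} (hm : m * m = m) :
    ∀ (n : ℕ) (B : Fin n → Subgroup G), yy (XX B) hm = ∑ i, yy (G ⧸ B i) hm := by
  intro n
  induction n with
  | zero =>
    intro B
    rw [yy_empty]; simp
  | succ n ih =>
    intro B
    rw [yy_congr hm (splitFirst B), yy_sum, ih, Fin.sum_univ_succ]
    rintro g ⟨i, q⟩
    induction i using Fin.cases with
    | zero => rfl
    | succ i => rfl

theorem yy_point {X : Type} [MulAction G X] [Finite X] [Unique X] {ι : Type}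
    [Fintype ι] [DecidableEq ι] {m : Matrix ι ι (MonoidAlgebra R G)} (hm : m * m = m) :
    yy X hm = cl0 m hm := by
  classical
  have := Fintype.ofFinite X
  rw [yy_eq]
  apply cl0_congr (Equiv.prodUnique ι X)
  rintro ⟨i, x⟩ ⟨j, y⟩
  have h : ∀ a : MonoidAlgebra R G, th G X a x y = a := by
    intro a
    let f : MonoidAlgebra R G →+ MonoidAlgebra R G :=
      { toFun := fun a => th G X a x y
        map_zero' := by simp
        map_add' := by intro a b; simp }
    have h1 : f = AddMonoidHom.id _ := by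
      apply zg_ext
      intro b r
      show th G X _ x y = _
      rw [th_single, if_pos (Subsingleton.elim _ _)]
      rfl
    exact DFunLike.congr_fun h1 a
  exact h _

/-- comparison of two `G`-sets with isomorphic permutation representations -/
theorem yy_compare [Finite G] {X Y : Type} [MulAction G X] [Fintype X] [DecidableEq X]
    [MulAction G Y] [Fintype Y] [DecidableEq Y] {ι : Type} [Fintype ι] [DecidableEq ι]
    {m : Matrix ι ι (MonoidAlgebra R G)} (hm : m * m = m) (P : Matrix X Y ℤ) (Q : Matrix Y X ℤ)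
    (δ : ℕ) (hδ : IsUnit (δ : R)) (h1 : P * Q = (δ : Matrix X X ℤ))
    (h2 : Q * P = (δ : Matrix Y Y ℤ)) (h3 : ∀ (g : G) x y, P (g • x) (g • y) = P x y) :
    yy X hm = yy Y hm := by
  rw [yy_eq, yy_eq]
  let A : Matrix (ι × X) (ι × Y) (MonoidAlgebra R G) :=
    Matrix.of fun p q => if p.1 = q.1 then ((P p.2 q.2 : ℤ) : MonoidAlgebra R G) else 0
  let A' : Matrix (ι × Y) (ι × X) (MonoidAlgebra R G) :=
    Matrix.of fun p q => if p.1 = q.1 then ((Q p.2 q.2 : ℤ) : MonoidAlgebra R G) else 0
  have hd1 : ((δ : R) • (1 : Matrix (ι × X) (ι × X) (MonoidAlgebra R G))) =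
      (δ : Matrix (ι × X) (ι × X) (MonoidAlgebra R G)) := by
    rw [Nat.cast_smul_eq_nsmul, nsmul_eq_mul, mul_one]
  have hd2 : ((δ : R) • (1 : Matrix (ι × Y) (ι × Y) (MonoidAlgebra R G))) =
      (δ : Matrix (ι × Y) (ι × Y) (MonoidAlgebra R G)) := by
    rw [Nat.cast_smul_eq_nsmul, nsmul_eq_mul, mul_one]
  apply cl0_compare _ _ A A' (δ : R) hδ
  · rw [hd1]
    ext ⟨i, x⟩ ⟨j, x'⟩ : 1
    rw [Matrix.mul_apply, Fintype.sum_prod_type]
    rw [Finset.sum_eq_single i]
    · simp only [A, A', Matrix.of_apply, if_true]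
      have h4 := congrFun (congrFun h1 x) x'
      rw [Matrix.mul_apply] at h4
      by_cases hij : i = j
      · subst hij
        simp only [if_true]
        rw [show ∑ z, ((P x z : ℤ) : MonoidAlgebra R G) * ((Q z x' : ℤ) : MonoidAlgebra R G) =
          ((∑ z, P x z * Q z x' : ℤ) : MonoidAlgebra R G) by push_cast; rfl, h4]
        by_cases hx : x = x'
        · subst hx; simp [Matrix.natCast_apply]
        · simp [Matrix.natCast_apply, hx]
      · simp [Matrix.natCast_apply, hij]
    · intro k _ hk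
      simp [A, Ne.symm hk]
    · simp
  · rw [hd2]
    ext ⟨i, x⟩ ⟨j, x'⟩ : 1
    rw [Matrix.mul_apply, Fintype.sum_prod_type]
    rw [Finset.sum_eq_single i]
    · simp only [A, A', Matrix.of_apply, if_true]
      have h4 := congrFun (congrFun h2 x) x'
      rw [Matrix.mul_apply] at h4
      by_cases hij : i = j
      · subst hij
        simp only [if_true]
        rw [show ∑ z, ((Q x z : ℤ) : MonoidAlgebra R G) * ((P z x' : ℤ) : MonoidAlgebra R G) =
          ((∑ z, Q x z * P z x' : ℤ) : MonoidAlgebra R G) by push_cast; rfl, h4]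
        by_cases hx : x = x'
        · subst hx; simp [Matrix.natCast_apply]
        · simp [Matrix.natCast_apply, hx]
      · simp [Matrix.natCast_apply, hij]
    · intro k _ hk
      simp [A', Ne.symm hk]
    · simp
  · ext ⟨i, x⟩ ⟨j, y⟩ : 1
    rw [Matrix.mul_apply, Matrix.mul_apply, Fintype.sum_prod_type, Fintype.sum_prod_type,
      Finset.sum_eq_single j, Finset.sum_eq_single i]
    · simp only [A, Matrix.of_apply, if_true, bl]
      exact th_intertwine P h3 _ _ _
    · intro k _ hk
      simp [A, Ne.symm hk]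
    · simp
    · intro k _ hk
      simp [A, hk]
    · simp

theorem yy_induced [Finite G] (C : Subgroup G) {ι : Type} [Fintype ι] [DecidableEq ι]
    {m : Matrix ι ι (MonoidAlgebra R G)} (hm : m * m = m) : ∃ z : K0 (MonoidAlgebra R C),
      yy (G ⧸ C) hm = K0.map (MonoidAlgebra.mapDomainRingHom R C.subtype) z := by
  classical
  have := Fintype.ofFinite (G ⧸ C)
  rw [yy_eq]
  refine ⟨cl0 (bl (ps C) m) (bl_idem _ hm), ?_⟩
  rw [K0map_cl0]
  -- the diagonal matrix of representatives
  apply cl0_conj _ _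
    (Matrix.diagonal fun p : ι × (G ⧸ C) => MonoidAlgebra.of R G (Quotient.out p.2))
    (Matrix.diagonal fun p : ι × (G ⧸ C) => MonoidAlgebra.of R G (Quotient.out p.2)⁻¹)
  · rw [Matrix.diagonal_mul_diagonal]
    simp only [← map_mul, inv_mul_cancel, map_one, Matrix.diagonal_one]
  · ext ⟨i, x⟩ ⟨j, y⟩ : 1
    rw [Matrix.mul_diagonal, Matrix.diagonal_mul, Matrix.map_apply]
    show th G (G ⧸ C) (m i j) x y = MonoidAlgebra.of R G (Quotient.out x) *
      MonoidAlgebra.mapDomainRingHom R C.subtype (ps C (m i j) x y) *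
      MonoidAlgebra.of R G (Quotient.out y)⁻¹
    rw [ps_th, mul_assoc, ← map_mul, mul_inv_cancel, map_one, mul_one]

end

/-- Artin induction for `K₀(R[G])`, where all positive integers are invertible in `R`. -/
theorem artin : S_Artin := by
  intro R _ hR G _ _ x
  let S : AddSubgroup (K0 (MonoidAlgebra R G)) :=
    AddSubgroup.closure {y | ∃ (C : Subgroup G) (_ : IsCyclic C)
        (z : K0 (MonoidAlgebra R C)), y = K0.map (MonoidAlgebra.mapDomainRingHom R C.subtype) z}
  show ∃ k : ℕ, 0 < k ∧ k • x ∈ S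
  induction x using K0.induction with
  | hadd x y hx hy =>
    obtain ⟨k, hk, hx⟩ := hx
    obtain ⟨l, hl, hy⟩ := hy
    refine ⟨k * l, Nat.mul_pos hk hl, ?_⟩
    rw [nsmul_add]
    apply S.add_mem
    · rw [mul_comm, mul_nsmul']
      exact S.nsmul_mem hx l
    · rw [mul_nsmul']
      exact S.nsmul_mem hy k
  | hneg x hx =>
    obtain ⟨k, hk, hx⟩ := hx
    refine ⟨k, hk, ?_⟩
    rw [smul_neg]
    exact S.neg_mem hx
  | hcl N m hm =>
    obtain ⟨n, n', B, B', s, hs, ⟨l₁, l₂, hl₁, hl₂, hB, hB'⟩, f1, d1, f2, d2, P, Q, δ, hδ, h1, h2,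
      h3⟩ := artin_matrix G
    have h := yy_compare hm P Q δ (hR δ hδ) h1 h2 h3
    refine ⟨s, hs, ?_⟩
    have hmem : ∀ C : Subgroup G, IsCyclic C → yy (G ⧸ C) hm ∈ S := by
      intro C hC
      obtain ⟨z, hz⟩ := yy_induced C hm
      rw [hz]
      exact AddSubgroup.subset_closure ⟨C, hC, z, rfl⟩
    have hlist : ∀ l : List (Subgroup G), (∀ C ∈ l, IsCyclic C) →
        (l.map fun C => yy (G ⧸ C) hm).sum ∈ S := by
      intro l hl
      apply AddSubgroup.list_sum_mem
      intro y hy
      obtain ⟨C, hC, rfl⟩ := List.mem_map.1 hy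
      exact hmem C (hl C hC)
    have e1 : ∀ (n : ℕ) (B : Fin n → Subgroup G), yy (XX B) hm =
        ((List.ofFn B).map fun C => yy (G ⧸ C) hm).sum := by
      intro n B
      rw [yy_XX, List.map_ofFn, List.sum_ofFn]
      rfl
    rw [e1, e1, hB, hB'] at h
    rw [List.map_append, List.sum_append, List.map_replicate, List.sum_replicate] at h
    have e2 : yy (G ⧸ (⊤ : Subgroup G)) hm = cl0 m hm := by
      have : Subsingleton (G ⧸ (⊤ : Subgroup G)) := QuotientGroup.subsingleton_quotient_top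
      let _ : Unique (G ⧸ (⊤ : Subgroup G)) :=
        ⟨⟨((1 : G) : G ⧸ (⊤ : Subgroup G))⟩, fun _ => Subsingleton.elim _ _⟩
      exact yy_point hm
    rw [e2] at h
    have h4 : s • cl0 m hm = (l₂.map fun C => yy (G ⧸ C) hm).sum -
        (l₁.map fun C => yy (G ⧸ C) hm).sum := by
      rw [← h]
      abel
    rw [h4]
    exact S.sub_mem (hlist l₂ hl₂) (hlist l₁ hl₁)

end

end Pool.Agent.Y43.NK
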