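import Pool.Agent.Y778.NK.Stm

/-! Job NK-CYC of helper778: the indicator function of the generators of a cyclic subgroup as a
trace. -/

set_option autoImplicit false

namespace Pool.Agent.Y43.NK

open MonoidAlgebra Pool.Agent.Y69 Pool.Agent.Y778.NK
open Pool.Agent.H23R2.Cyc (ell ell_single)

noncomputable section

theorem T_avg (D : Type) [Group D] [Finite D] [Fintype D] (h : D → ℤ) (hh : IsCls h) :
    T ℚ h (avgCl D) = (Nat.card D : ℚ)⁻¹ * ∑ d : D, (h d : ℚ) := by
  unfold avgCl cl1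
  rw [T_cl0 hh]
  unfold hs
  rw [Fintype.sum_unique, Matrix.of_apply]
  unfold avg
  rw [map_sum, Finset.mul_sum]
  have h1 : ∀ (i1 i2 : Fintype D) (g : D → ℚ), @Finset.sum D ℚ _ (@Finset.univ D i1) g =
      @Finset.sum D ℚ _ (@Finset.univ D i2) g := by
    intro i1 i2 g
    rw [Subsingleton.elim i1 i2]
  rw [h1 _ inferInstance]
  refine Finset.sum_congr rfl fun d _ => ?_
  rw [ell_single]

theorem TC_avg {G : Type} [Group G] (D : FinSub G) [Finite D.1] [Fintype D.1] {h : G → ℤ}
    (hh : IsCls h) : TC ℚ h (Nat.card D.1 • ci D (avgCl D.1)) = ∑ d : D.1, (h d : ℚ) := by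
  rw [map_nsmul, TC_ci hh, T_avg D.1 (fun g => h g) (fun x y => hh x y), nsmul_eq_mul,
    ← mul_assoc, mul_inv_cancel₀, one_mul]
  exact_mod_cast Nat.card_pos.ne'

/-- the sum over the generators of a subgroup -/
def fK {G : Type} [Group G] (h : G → ℤ) (K : Subgroup G) : ℚ :=
  ∑ᶠ (d : G) (_ : Subgroup.zpowers d = K), (h d : ℚ)

theorem fK_eq {G : Type} [Group G] (h : G → ℤ) (K : Subgroup G) (F : Finset G)
    [DecidablePred fun d : G => Subgroup.zpowers d = K]
    (hF : ∀ d, Subgroup.zpowers d = K → d ∈ F) :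
    fK h K = ∑ d ∈ F.filter fun d => Subgroup.zpowers d = K, (h d : ℚ) := by
  have h1 : {d : G | Subgroup.zpowers d = K} =
      ((F.filter fun d => Subgroup.zpowers d = K : Finset G) : Set G) := by
    ext d
    rw [Set.mem_ofPred_eq, Finset.coe_filter, Set.mem_ofPred_eq]
    exact ⟨fun h => ⟨hF d h, h⟩, fun h => h.2⟩
  have h2 : fK h K = ∑ᶠ d ∈ {d : G | Subgroup.zpowers d = K}, (h d : ℚ) := rfl
  rw [h2, h1, finsum_mem_coe_finset]

theorem finite_lt {G : Type} [Group G] (D : Subgroup G) [Finite D] :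
    {K : Subgroup G | K < D}.Finite := by
  have h1 : {s : Set G | s ⊆ (D : Set G)}.Finite := (Set.toFinite (D : Set G)).finite_subsets
  apply Set.Finite.of_finite_image (f := fun K : Subgroup G => (K : Set G))
  · refine h1.subset ?_
    rintro _ ⟨K, hK, rfl⟩
    have hK' : K < D := hK
    intro x hx
    exact hK'.le hx
  · intro K _ K' _ h
    exact SetLike.coe_injective h

theorem sum_eq {G : Type} [Group G] (D : Subgroup G) [Finite D] [Fintype D] (h : G → ℤ)
    (S : Finset (Subgroup G)) (hS : ∀ K, K ∈ S ↔ K < D) :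
    ∑ d : D, (h d : ℚ) = fK h D + ∑ K ∈ S, fK h K := by
  classical
  let F : Finset G := Finset.univ.map ⟨(Subtype.val : D → G), Subtype.val_injective⟩
  have hF : ∀ d, d ∈ F ↔ d ∈ D := by
    intro d
    rw [Finset.mem_map]
    constructor
    · rintro ⟨x, _, rfl⟩
      exact x.2
    · intro hd
      exact ⟨⟨d, hd⟩, Finset.mem_univ _, rfl⟩
  have h1 : ∑ d : D, (h d : ℚ) = ∑ d ∈ F, (h d : ℚ) := by
    rw [Finset.sum_map]
    rfl
  have hDS : D ∉ S := fun hD => lt_irrefl D ((hS D).1 hD)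
  have h2 : ∀ d ∈ F, Subgroup.zpowers d ∈ insert D S := by
    intro d hd
    have h3 : Subgroup.zpowers d ≤ D := (Subgroup.zpowers_le).2 ((hF d).1 hd)
    rcases h3.eq_or_lt with h4 | h4
    · exact Finset.mem_insert.2 (Or.inl h4)
    · exact Finset.mem_insert_of_mem ((hS _).2 h4)
  rw [h1, ← Finset.sum_fiberwise_of_maps_to h2, Finset.sum_insert hDS]
  have h3 : ∀ K : Subgroup G, K ≤ D →
      ∑ d ∈ F.filter fun d => Subgroup.zpowers d = K, (h d : ℚ) = fK h K := by
    intro K hK
    rw [fK_eq h K F]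
    intro d hd
    rw [hF]
    exact hK (hd ▸ Subgroup.mem_zpowers d)
  rw [h3 D le_rfl]
  congr 1
  exact Finset.sum_congr rfl fun K hK => h3 K ((hS K).1 hK).le

theorem cyc : S_Cyc := by
  intro G _ D
  classical
  induction hn : Nat.card D.1 using Nat.strong_induction_on generalizing D with
  | _ n ih =>
    have hfD : Finite D.1 := D.2
    let _ := Fintype.ofFinite D.1
    have hS : ∀ K, K ∈ (finite_lt D.1).toFinset ↔ K < D.1 := by
      intro K
      rw [Set.Finite.mem_toFinset]
      rfl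
    generalize (finite_lt D.1).toFinset = S at hS
    have hK : ∀ K, K ∈ S → ∃ (M : ℕ) (v : ColK ℚ G), 0 < M ∧ v ∈ AvgSpan G ∧
        ∀ h : G → ℤ, IsCls h → TC ℚ h v = M * fK h K := by
      intro K hK
      have hlt := (hS K).1 hK
      have hfin : Finite K := Finite.Set.subset (D.1 : Set G) hlt.le
      have hcard : Nat.card K < n := by
        rw [← hn]
        exact Set.ncard_lt_ncard (SetLike.coe_ssubset_coe.2 hlt) (Set.toFinite _)
      exact ih (Nat.card K) hcard ⟨K, hfin⟩ rfl
    choose! M v hM hv hT using hK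
    let MM : ℕ := ∏ K ∈ S, M K
    have hMM : 0 < MM := Finset.prod_pos hM
    refine ⟨MM, MM • (Nat.card D.1 • ci D (avgCl D.1)) - ∑ K ∈ S, (MM / M K) • v K, hMM, ?_, ?_⟩
    · apply AddSubgroup.sub_mem
      · apply AddSubgroup.nsmul_mem
        apply AddSubgroup.nsmul_mem
        exact AddSubgroup.subset_closure ⟨D, rfl⟩
      · apply AddSubgroup.sum_mem
        intro K hK
        exact AddSubgroup.nsmul_mem _ (hv K hK) _
    · intro h hh
      show _ = (MM : ℚ) * fK h D.1
      rw [map_sub, map_nsmul, TC_avg D hh, sum_eq D.1 h S hS, map_sum]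
      have h1 : ∀ K ∈ S, TC ℚ h ((MM / M K) • v K) = MM * fK h K := by
        intro K hK
        rw [map_nsmul, hT K hK h hh, nsmul_eq_mul, ← mul_assoc, ← Nat.cast_mul,
          Nat.div_mul_cancel (Finset.dvd_prod_of_mem M hK)]
      rw [Finset.sum_congr rfl h1, ← Finset.mul_sum, nsmul_eq_mul]
      ring

end

end Pool.Agent.Y43.NK
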