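import Pool.Agent.Y778.NK.Stm

/-! Job NK-INT of helper778: idempotents of `ℚ_p[C]` are integral for `p` not dividing `|C|`. -/

set_option autoImplicit false

namespace Pool.Agent.Y43.NK

open MonoidAlgebra Pool.Agent.Y778.NK

noncomputable section

variable {p : ℕ} [Fact p.Prime] {C : Type} [CommGroup C]

theorem map_inj (x y : MonoidAlgebra ℤ_[p] C)
    (h : mapRingHom C PadicInt.Coe.ringHom x = mapRingHom C PadicInt.Coe.ringHom y) : x = y := by
  ext c
  have h1 : (mapRingHom C PadicInt.Coe.ringHom x).coeff c =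
      (mapRingHom C PadicInt.Coe.ringHom y).coeff c := by rw [h]
  rw [coeff_mapRingHom, coeff_mapRingHom] at h1
  exact PadicInt.ext h1

theorem lift_int [Finite C] (x : MonoidAlgebra ℚ_[p] C) (h : ∀ c, ‖x.coeff c‖ ≤ 1) :
    ∃ x' : MonoidAlgebra ℤ_[p] C, mapRingHom C PadicInt.Coe.ringHom x' = x := by
  classical
  let _ := Fintype.ofFinite C
  obtain ⟨y, hy⟩ : ∃ y : C → ℤ_[p], ∀ c, PadicInt.Coe.ringHom (y c) = x.coeff c :=
    ⟨fun c => ⟨x.coeff c, h c⟩, fun c => rfl⟩
  refine ⟨∑ c : C, single c (y c), ?_⟩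
  ext c
  rw [coeff_mapRingHom, coeff_sum, Finsupp.finsetSum_apply, Finset.sum_eq_single c]
  · rw [coeff_single, Finsupp.single_eq_same, hy]
  · intro b _ hb
    rw [coeff_single, Finsupp.single_eq_of_ne hb.symm]
  · intro hc
    exact absurd (Finset.mem_univ c) hc

theorem nil_zero [Finite C] (hC : ¬ p ∣ Nat.card C) (b : MonoidAlgebra (ZMod p) C)
    (hb : b * b = 0) : b = 0 := by
  classical
  let _ := Fintype.ofFinite C
  have hp : p.Prime := Fact.out
  have : CharP (MonoidAlgebra (ZMod p) C) p := by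
    exact charP_of_injective_algebraMap (algebraMap (ZMod p) (MonoidAlgebra (ZMod p) C)).injective p
  have h1 : b ^ p = 0 := pow_eq_zero_of_le hp.two_le (by rw [pow_two, hb])
  have h2 : b = ∑ c : C, single c (b.coeff c) := by
    ext c
    rw [coeff_sum, Finsupp.finsetSum_apply, Finset.sum_eq_single c]
    · rw [coeff_single, Finsupp.single_eq_same]
    · intro d _ hd
      rw [coeff_single, Finsupp.single_eq_of_ne hd.symm]
    · intro hc
      exact absurd (Finset.mem_univ c) hc
  have h3 : b ^ p = ∑ c : C, single (c ^ p) (b.coeff c) := by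
    conv_lhs => rw [h2]
    rw [sum_pow_char]
    refine Finset.sum_congr rfl fun c _ => ?_
    rw [single_pow, ZMod.pow_card]
  have hcop : (Nat.card C).Coprime p := ((Nat.Prime.coprime_iff_not_dvd hp).2 hC).symm
  have hinj : Function.Injective fun c : C => c ^ p := (powCoprime hcop).injective
  ext c
  have h4 : (b ^ p).coeff (c ^ p) = b.coeff c := by
    rw [h3, coeff_sum, Finsupp.finsetSum_apply, Finset.sum_eq_single c]
    · rw [coeff_single, Finsupp.single_eq_same]
    · intro d _ hd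
      rw [coeff_single, Finsupp.single_eq_of_ne]
      intro h
      exact hd (hinj h.symm)
    · intro hc
      exact absurd (Finset.mem_univ c) hc
  rw [← h4, h1]
  rfl

theorem int : S_Int := by
  intro p _ C _ _ hC e he
  classical
  let _ := Fintype.ofFinite C
  have hp : p.Prime := Fact.out
  -- some power of `p` makes `e` integral
  have hex : ∃ k : ℕ, ∀ c : C, ‖(p : ℚ_[p]) ^ k * e.coeff c‖ ≤ 1 := by
    have h1 : ∀ c : C, ∃ k : ℕ, ‖(p : ℚ_[p]) ^ k * e.coeff c‖ ≤ 1 := by
      intro c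
      have h2 : Filter.Tendsto (fun k : ℕ => ‖(p : ℚ_[p])‖ ^ k * ‖e.coeff c‖) Filter.atTop
          (nhds (0 * ‖e.coeff c‖)) :=
        (tendsto_pow_atTop_nhds_zero_of_lt_one (norm_nonneg _) Padic.norm_p_lt_one).mul_const _
      rw [zero_mul] at h2
      obtain ⟨k, hk⟩ := (h2.eventually (gt_mem_nhds one_pos)).exists
      refine ⟨k, ?_⟩
      rw [norm_mul, norm_pow]
      exact hk.le
    choose k hk using h1
    refine ⟨∑ c, k c, fun c => ?_⟩
    have h3 : k c ≤ ∑ c, k c := Finset.single_le_sum (fun _ _ => Nat.zero_le _) (Finset.mem_univ c)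
    obtain ⟨m, hm⟩ := Nat.exists_eq_add_of_le h3
    rw [hm, add_comm, pow_add, mul_assoc, norm_mul, norm_pow]
    have h4 : ‖(p : ℚ_[p])‖ ^ m ≤ 1 := pow_le_one₀ (norm_nonneg _) Padic.norm_p_lt_one.le
    calc ‖(p : ℚ_[p])‖ ^ m * ‖(p : ℚ_[p]) ^ k c * e.coeff c‖ ≤ 1 * 1 :=
          mul_le_mul h4 (hk c) (norm_nonneg _) zero_le_one
      _ = 1 := one_mul 1
  have hmin := Nat.find_spec hex
  have hlt := fun m (hm : m < Nat.find hex) => Nat.find_min hex hm
  generalize Nat.find hex = k at hmin hlt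
  rcases Nat.eq_zero_or_pos k with rfl | hk
  · obtain ⟨e', he'⟩ := lift_int e (fun c => by
      have := hmin c
      rwa [pow_zero, one_mul] at this)
    refine ⟨e', ?_, he'⟩
    apply map_inj
    rw [map_mul, he', he]
  · exfalso
    obtain ⟨x', hx'⟩ := lift_int ((p : ℚ_[p]) ^ k • e) (fun c => by
      rw [coeff_smul, Finsupp.smul_apply, smul_eq_mul]
      exact hmin c)
    have h1 : x' * x' = (p : ℤ_[p]) ^ k • x' := by
      apply map_inj
      rw [map_mul, hx', smul_mul_smul_comm, he]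
      ext c
      rw [coeff_mapRingHom, coeff_smul, coeff_smul, Finsupp.smul_apply, Finsupp.smul_apply,
        smul_eq_mul, smul_eq_mul, map_mul, ← coeff_mapRingHom, hx', coeff_smul, Finsupp.smul_apply,
        smul_eq_mul, map_pow, map_natCast, mul_assoc]
    have h2 : mapRingHom C (PadicInt.toZMod (p := p)) x' = 0 := by
      apply nil_zero hC
      rw [← map_mul, h1]
      ext c
      rw [coeff_mapRingHom, coeff_smul, Finsupp.smul_apply, smul_eq_mul, map_mul, map_pow,
        map_natCast, ZMod.natCast_self, zero_pow hk.ne', zero_mul]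
      rfl
    apply hlt (k - 1) (by omega)
    intro c
    have h3 : PadicInt.toZMod (x'.coeff c) = 0 := by
      rw [← coeff_mapRingHom, h2]
      rfl
    have h4 : x'.coeff c ∈ RingHom.ker (PadicInt.toZMod (p := p)) := h3
    rw [PadicInt.ker_toZMod, PadicInt.maximalIdeal_eq_span_p, Ideal.mem_span_singleton] at h4
    obtain ⟨y, hy⟩ := h4
    have h5 : (p : ℚ_[p]) ^ k * e.coeff c = (p : ℚ_[p]) * (y : ℚ_[p]) := by
      have h6 : (mapRingHom C PadicInt.Coe.ringHom x').coeff c =
          ((p : ℚ_[p]) ^ k • e).coeff c := by rw [hx']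
      rw [coeff_mapRingHom, coeff_smul, Finsupp.smul_apply, smul_eq_mul, hy, map_mul,
        map_natCast] at h6
      exact h6.symm
    have h7 : (p : ℚ_[p]) ≠ 0 := Nat.cast_ne_zero.2 hp.ne_zero
    have h8 : (p : ℚ_[p]) ^ (k - 1) * e.coeff c = (y : ℚ_[p]) := by
      apply mul_left_cancel₀ h7
      rw [← h5, ← mul_assoc, ← pow_succ', Nat.sub_add_cancel hk]
    rw [h8]
    exact y.2

end

end Pool.Agent.Y43.NK
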